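import Pool.Agent.MP_4a6971_al.H83.Stmt

/-!
The mapping class group of an orientable surface of finite type.
-/

namespace Pool.Agent.MP_646035_al.MC

open Pool.Agent.MP_4a6971_al.Mcg Topology

/-- Marked points (punctures) and disjoint discs in a closed surface `X`. The surface of finite type
is `X` with the open discs `d i (ball 0 1)` removed and the points of `P` marked. -/
structure Marks (X : Type) [TopologicalSpace X] where
  P : Finset X
  b : ℕ
  d : Fin b → ℂ → X
  emb : ∀ i, IsOpenEmbedding (d i)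
  disj : ∀ i j z w, d i z = d j w → i = j
  avoid : ∀ i z, d i z ∉ P

variable {X : Type} [TopologicalSpace X] (c : Marks X)

/-- The homeomorphisms that permute the marked points and fix the closed discs pointwise. -/
def Marks.Adm : Subgroup (X ≃ₜ X) where
  carrier := {f | (∀ x, f x ∈ c.P ↔ x ∈ c.P) ∧ ∀ i z, ‖z‖ ≤ 1 → f (c.d i z) = c.d i z}
  one_mem' := ⟨fun _ => Iff.rfl, fun _ _ _ => rfl⟩
  mul_mem' := fun {f h} a b => ⟨fun x => (a.1 (h x)).trans (b.1 x),
    fun i z hz => (congrArg f (b.2 i z hz)).trans (a.2 i z hz)⟩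
  inv_mem' := fun {f} a => ⟨fun x => by
      have := a.1 (f.symm x)
      rw [f.apply_symm_apply] at this
      exact this.symm,
    fun i z hz => f.symm_apply_eq.2 (a.2 i z hz).symm⟩

/-- The orientation preserving ones among them. -/
def Marks.Homeo : Subgroup (X ≃ₜ X) := HomeoPlus X ⊓ c.Adm

/-- Those that are isotopic to the identity through such homeomorphisms. -/
def Marks.Zero : Subgroup c.Homeo where
  carrier := {f | ∃ H : C(unitInterval × X, X), (∀ t, ∃ h ∈ c.Adm, ∀ x, H (t, x) = h x) ∧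
    (∀ x, H (0, x) = x) ∧ ∀ x, H (1, x) = f.1 x}
  one_mem' := ⟨ContinuousMap.snd, fun _ => ⟨1, one_mem _, fun _ => rfl⟩, fun _ => rfl, fun _ => rfl⟩
  mul_mem' := by
    rintro f h ⟨H, a, b, e⟩ ⟨K, a', b', e'⟩
    refine ⟨⟨fun p => H (p.1, K p), by fun_prop⟩, fun t => ?_,
      fun x => (b _).trans (b' x), fun x => (e _).trans (congrArg f.1 (e' x))⟩
    obtain ⟨u, u1, u2⟩ := a t
    obtain ⟨v, v1, v2⟩ := a' t
    exact ⟨u * v, mul_mem u1 v1, fun x => (u2 _).trans (congrArg u (v2 x))⟩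
  inv_mem' := by
    rintro f ⟨H, a, b, e⟩
    refine ⟨⟨fun p => H (unitInterval.symm p.1, f.1.symm p.2), by fun_prop⟩, fun t => ?_,
      fun x => ?_, fun x => ?_⟩
    · obtain ⟨u, u1, u2⟩ := a (unitInterval.symm t)
      exact ⟨u * f.1⁻¹, mul_mem u1 (inv_mem f.2.2), fun x => u2 _⟩
    · simpa using e (f.1.symm x)
    · simpa using b (f.1.symm x)

instance : c.Zero.Normal :=
  ⟨by
    rintro f ⟨H, a, b, e⟩ h
    refine ⟨⟨fun p => h.1 (H (p.1, h.1.symm p.2)), by fun_prop⟩, fun t => ?_, fun x => ?_,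
      fun x => ?_⟩
    · obtain ⟨u, u1, u2⟩ := a t
      exact ⟨h.1 * u * h.1⁻¹, mul_mem (mul_mem h.2.2 u1) (inv_mem h.2.2),
        fun x => congrArg h.1 (u2 _)⟩
    · simp [b]
    · exact congrArg h.1 (e _)⟩

/-- The mapping class group. -/
abbrev Marks.MCG : Type := c.Homeo ⧸ c.Zero

end Pool.Agent.MP_646035_al.MC
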