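import Pool.Agent.MP_646035_al.MC.Iface
import Pool.Agent.MP_646035_al.MC.Stmt

/-!
The goals of part C.
-/

namespace Pool.Agent.MP_646035_al.MC

open Pool.Agent.MP_4a6971_al.Mcg

/-- Surfaces of negative Euler characteristic. -/
def GoalC : Prop :=
  ∀ (g : ℕ) (c : Marks (Surface g)), 3 ≤ 2 * g + c.P.card + c.b →
    ∃ (Γ : Type) (_ : Group Γ) (_ : Group.FG Γ) (Y : Fuchs Γ) (A : Subgroup (MulAut Γ))
      (j : c.MCG →* OutA A), Y.Mod A ∧ Function.Surjective j ∧ PolyKer j ∧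
        (g = 0 ∧ c.P.card + c.b = 3 → Finite (OutA A)) ∧
        (¬ (g = 0 ∧ c.P.card + c.b = 3) → ∃ E, Y.Curve E)

/-- The remaining surfaces, given the result in negative Euler characteristic. -/
def GoalLow : Prop :=
  GoalAB → GoalC → ∀ (g : ℕ) (c : Marks (Surface g)), 2 * g + c.P.card + c.b < 3 → WO c.MCG

/-- The fourth class. -/
def Class4 : Prop := ∀ (g : ℕ) (c : Marks (Surface g)), WO c.MCG

end Pool.Agent.MP_646035_al.MC
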