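import Pool.Agent.MP_4a6971_al.Mg.H66_CurveDefs
import Pool.Agent.MP_646035_al.Growth

/-!
The interface between the topological part and the combinatorial part: a convex cocompact torsion
free group of isometries of the hyperbolic plane and a group of automorphisms induced by
homeomorphisms.
-/

namespace Pool.Agent.MP_646035_al.MC

open Pool.Agent.MP_4a6971_al.H66

/-- The set of growth rates is well ordered. -/
def WO (G : Type*) [Group G] : Prop := ∀ A ⊆ growthSet G, A.Nonempty → ∃ a, IsLeast A a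

/-- The kernel meets the balls in polynomially many elements. -/
def PolyKer {M G : Type*} [Group M] [Group G] (j : M →* G) : Prop :=
  ∀ S : Finset M, ∃ C d : ℕ, ∀ n, (ball S n ∩ (j.ker : Set M)).ncard ≤ C * (n + 1) ^ d

/-- A discrete group of translations that is cocompact on the convex set cut out by the half planes
with the inward normals `per`. -/
structure Fuchs (Γ : Type) [Group Γ] where
  σ : Γ →* Isom
  per : Set V
  hyp : ∀ γ, γ ≠ 1 → Hyp (σ γ)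
  proper : ∀ R, {γ | ch o (σ γ • o) ≤ R}.Finite
  per_o : ∀ N ∈ per, 0 < Bf N o
  per_smul : ∀ γ, ∀ N ∈ per, σ γ • N ∈ per
  per_fin : ∃ T : Set V, T.Finite ∧ ∀ N ∈ per, ∃ γ, σ γ • N ∈ T
  per_ax : ∀ N ∈ per, ∃ γ, γ ≠ 1 ∧ IsAx (σ γ) N
  per_far : ∀ N ∈ per, ∀ N' ∈ per, N ≠ N' → Bf N N' < -1
  cocompact : ∃ R, ∀ P, H2 P → (∀ N ∈ per, 0 ≤ Bf N P) → ∃ γ, ch P (σ γ • o) ≤ R
  nonel : ∃ α β E F, α ≠ 1 ∧ β ≠ 1 ∧ IsAx (σ α) E ∧ IsAx (σ β) F ∧ Cr E F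

variable {Γ : Type} [Group Γ]

/-- The inner automorphisms. -/
def Inn (Γ : Type) [Group Γ] : Subgroup (MulAut Γ) := (MulAut.conj : Γ →* MulAut Γ).range

instance : (Inn Γ).Normal :=
  ⟨by
    rintro _ ⟨x, rfl⟩ φ
    exact ⟨φ x, by ext y; simp⟩⟩

/-- The image of `A` in the outer automorphism group. -/
abbrev OutA (A : Subgroup (MulAut Γ)) : Type := A ⧸ (Inn Γ).subgroupOf A

namespace Fuchs

variable (Y : Fuchs Γ)

/-- The attracting ends of `β` and `γ` lie on the same side of the axis of `α`. -/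
def Same (α β γ : Γ) : Prop :=
  α ≠ 1 ∧ β ≠ 1 ∧ γ ≠ 1 ∧ ∃ E N M, IsAx (Y.σ α) E ∧ End (Y.σ β) N ∧ End (Y.σ γ) M ∧
    0 < Bf E N ∧ 0 < Bf E M

/-- The attracting ends of `β` and `γ` lie on different sides of the axis of `α`. -/
def Apart (α β γ : Γ) : Prop :=
  α ≠ 1 ∧ β ≠ 1 ∧ γ ≠ 1 ∧ ∃ E N M, IsAx (Y.σ α) E ∧ End (Y.σ β) N ∧ End (Y.σ γ) M ∧
    0 < Bf E N ∧ Bf E M < 0

/-- `E` is a lift of a simple closed geodesic that is not a boundary component. -/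
structure Curve (E : V) : Prop where
  ax : ∃ α, α ≠ 1 ∧ IsAx (Y.σ α) E
  simple : ∀ γ, ¬ Cr E (Y.σ γ • E)
  pos : E ∉ Y.per
  neg : -E ∉ Y.per

/-- No translate of `E` meets the segment from `P` to `Q`. -/
def NoWall (E P Q : V) : Prop := ∀ γ, 0 < Bf (Y.σ γ • E) P * Bf (Y.σ γ • E) Q

/-- `φ` is induced by a power of the Dehn twist about `E`. -/
def IsTwist (E : V) (φ : MulAut Γ) : Prop :=
  ∃ τ P Q, τ ≠ 1 ∧ IsAx (Y.σ τ) E ∧ H2 P ∧ H2 Q ∧ 0 < Bf E P ∧ Bf E Q < 0 ∧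
    (∀ γ, Y.σ γ • E ≠ E → Y.σ γ • E ≠ -E → 0 < Bf (Y.σ γ • E) P * Bf (Y.σ γ • E) Q) ∧
    (∀ β, Y.NoWall E P (Y.σ β • P) → φ β = β) ∧
    ∀ β, Y.NoWall E Q (Y.σ β • Q) → φ β = τ * β * τ⁻¹

/-- The properties of the group of automorphisms induced by homeomorphisms. -/
structure Mod (A : Subgroup (MulAut Γ)) : Prop where
  inn : Inn Γ ≤ A
  side : ∀ φ ∈ A, ∀ α β γ, Y.Same α β γ → ¬ Y.Apart (φ α) (φ β) (φ γ)
  twist : ∀ E, Y.Curve E → ∃ φ ∈ A, Y.IsTwist E φ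
  fill : ∀ E, Y.Curve E → ∃ F, Y.Curve F ∧ Cr E F

end Fuchs

/-- The goal of parts A and B. -/
def GoalAB : Prop :=
  ∀ (Γ : Type) [Group Γ] [Group.FG Γ] (Y : Fuchs Γ) (A : Subgroup (MulAut Γ)), Y.Mod A →
    (∃ E, Y.Curve E) → WO (OutA A)

end Pool.Agent.MP_646035_al.MC
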