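import Pool.Agent.MP_646035_al.MC.Stmt

/-!
The extended mapping class group.
-/

namespace Pool.Agent.MP_646035_al.MC

variable {X : Type} [TopologicalSpace X] (c : Marks X)

/-- The admissible homeomorphisms that are isotopic to the identity through admissible ones. -/
def Marks.ZeroX : Subgroup c.Adm where
  carrier := {f | ∃ H : C(unitInterval × X, X), (∀ t, ∃ h ∈ c.Adm, ∀ x, H (t, x) = h x) ∧
    (∀ x, H (0, x) = x) ∧ ∀ x, H (1, x) = f.1 x}
  one_mem' := ⟨ContinuousMap.snd, fun _ => ⟨1, one_mem _, fun _ => rfl⟩, fun _ => rfl, fun _ => rfl⟩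
  mul_mem' := by
    rintro f h ⟨H, a, b, e⟩ ⟨K, a', b', e'⟩
    refine ⟨⟨fun p => H (p.1, K p), by fun_prop⟩, fun t => ?_,
      fun x => (b _).trans (b' x), fun x => (e _).trans (congrArg f.1 (e' x))⟩
    obtain ⟨u, u1, u2⟩ := a t
    obtain ⟨v, v1, v2⟩ := a' t
    exact ⟨u * v, mul_mem u1 v1, fun x => (u2 _).trans (congrArg u (v2 x))⟩
  inv_mem' := by
    rintro f ⟨H, a, b, e⟩
    refine ⟨⟨fun p => H (unitInterval.symm p.1, f.1.symm p.2), by fun_prop⟩, fun t => ?_,
      fun x => ?_, fun x => ?_⟩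
    · obtain ⟨u, u1, u2⟩ := a (unitInterval.symm t)
      exact ⟨u * f.1⁻¹, mul_mem u1 (inv_mem f.2), fun x => u2 _⟩
    · simpa using e (f.1.symm x)
    · simpa using b (f.1.symm x)

instance : c.ZeroX.Normal :=
  ⟨by
    rintro f ⟨H, a, b, e⟩ h
    refine ⟨⟨fun p => h.1 (H (p.1, h.1.symm p.2)), by fun_prop⟩, fun t => ?_, fun x => ?_,
      fun x => ?_⟩
    · obtain ⟨u, u1, u2⟩ := a t
      exact ⟨h.1 * u * h.1⁻¹, mul_mem (mul_mem h.2 u1) (inv_mem h.2),
        fun x => congrArg h.1 (u2 _)⟩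
    · simp [b]
    · exact congrArg h.1 (e _)⟩

/-- The extended mapping class group: orientation reversing classes are included. -/
abbrev Marks.Ext : Type := c.Adm ⧸ c.ZeroX

end Pool.Agent.MP_646035_al.MC
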